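import Pool.Agent.Helper15.DAF.Stmts

/-!
# Row DGLUE of the project DAF
-/

open AlgebraicGeometry CategoryTheory TopologicalSpace Opposite

namespace Pool.Agent.Helper2.DAF

open Pool.Agent.Helper15.DAF

theorem mulOp_mul {K : Type} [Field K] [Algebra ℂ K] (a b : K) :
    mulOp (a * b) = mulOp a * mulOp b := by
  ext x
  simp [mulOp, mul_assoc]

theorem mulOp_mem {K : Type} [Field K] [Algebra ℂ K] {B : Subalgebra ℂ K} {b : K} (hb : b ∈ B) :
    mulOp b ∈ Dop B :=
  Algebra.subset_adjoin (Or.inl ⟨b, hb, rfl⟩)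

theorem mulOp_add {K : Type} [Field K] [Algebra ℂ K] (a b : K) :
    mulOp (a + b) = mulOp a + mulOp b := by
  ext x
  simp [mulOp, add_mul]

theorem mulOp_one {K : Type} [Field K] [Algebra ℂ K] :
    mulOp (1 : K) = 1 := by
  ext x
  simp [mulOp]

theorem mulOp_zero {K : Type} [Field K] [Algebra ℂ K] :
    mulOp (0 : K) = 0 := by
  ext x
  simp [mulOp]

theorem st_DGLUE (hORE : ST_ORE) (hDM : ST_DMONO) (hSL : ST_SLOC) (hSB : ST_SBASIC)
    (hFG : ST_SFG) : ST_DGLUE := by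
  intro X _ s _ Q hQ
  unfold globalD
  rw [Algebra.mem_iInf]
  intro V
  let I : Ideal Γ(X, V.U) :=
    { carrier := {a | mulOp (ev s V a) * Q ∈ Dop (O s V)}
      add_mem' := by
        intro a b ha hb
        change mulOp (ev s V (a + b)) * Q ∈ Dop (O s V)
        rw [map_add, mulOp_add, add_mul]
        exact Subalgebra.add_mem _ ha hb
      zero_mem' := by
        change mulOp (ev s V 0) * Q ∈ Dop (O s V)
        rw [map_zero, mulOp_zero, zero_mul]
        exact Subalgebra.zero_mem _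
      smul_mem' := by
        intro c a ha
        change mulOp (ev s V (c * a)) * Q ∈ Dop (O s V)
        rw [map_mul, mulOp_mul, mul_assoc]
        exact Subalgebra.mul_mem _ (mulOp_mem ⟨c, rfl⟩) ha }
  have h1 : Ideal.span (I : Set Γ(X, V.U)) = ⊤ := by
    rw [← V.aff.self_le_iSup_basicOpen_iff]
    intro x hx
    obtain ⟨W, hxW, hW⟩ := hQ x
    obtain ⟨f, Z, hZ, hxZ, hZW⟩ := hSB X V W.U x hx hxW
    have h2 : Q ∈ Dop (O s Z) := (hDM X s W Z hZW).2 hW
    obtain ⟨N, hN⟩ := hORE (FF s) (O s V) (O s Z) (ev s V f) (hSL X s V Z f hZ) (hFG X s V) Q h2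
    have h3 : f ^ (N + 1) ∈ I := by
      change mulOp (ev s V (f ^ (N + 1))) * Q ∈ Dop (O s V)
      rw [pow_succ', map_mul, map_pow, mulOp_mul, mul_assoc]
      exact Subalgebra.mul_mem _ (mulOp_mem ⟨f, rfl⟩) hN
    rw [Opens.mem_iSup]
    refine ⟨⟨f ^ (N + 1), h3⟩, ?_⟩
    change x ∈ X.basicOpen (f ^ (N + 1))
    rw [X.basicOpen_pow f (Nat.succ_pos N), ← hZ]
    exact hxZ
  rw [Ideal.span_eq] at h1
  have h4 : (1 : Γ(X, V.U)) ∈ I := by rw [h1]; trivial
  have h5 : mulOp (ev s V 1) * Q ∈ Dop (O s V) := h4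
  rw [map_one, mulOp_one, one_mul] at h5
  exact h5

end Pool.Agent.Helper2.DAF
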