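import Pool.Agent.Helper15.DAF.Stmts

/-! DAF rows SMONO and SLOC. -/

open AlgebraicGeometry CategoryTheory TopologicalSpace Opposite

namespace Pool.Agent.Helper15.DAF

namespace S2

variable {X : Scheme.{0}} [IsIntegral X] (s : X ⟶ Spec (CommRingCat.of ℂ))

theorem ev_res (V W : Aff X) (h : W.U ≤ V.U) (f : Γ(X, V.U)) :
    ev s W (X.presheaf.map (homOfLE h).op f) = ev s V f := by
  change (X.germToFunctionField W.U).hom _ = (X.germToFunctionField V.U).hom _
  exact X.presheaf.germ_res_apply (homOfLE h) (genericPoint X) _ _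

theorem mem_O {V : Aff X} {a : FF s} : a ∈ O s V ↔ ∃ f, ev s V f = a := Iff.rfl

end S2

open S2

/-- (SMONO) -/
theorem st_SMONO : ST_SMONO := by
  intro X _ s V W h a ha
  obtain ⟨f, rfl⟩ := (mem_O s).1 ha
  exact (mem_O s).2 ⟨_, ev_res s V W h f⟩

/-- (SLOC) -/
theorem st_SLOC : ST_SLOC := by
  intro X _ s V W f hW
  obtain ⟨U, hU, hne⟩ := W
  simp only at hW
  subst hW
  have hle : X.basicOpen f ≤ V.U := X.basicOpen_le f
  have hev := ev_res s V ⟨X.basicOpen f, hU, hne⟩ hle
  have hunit : IsUnit (X.presheaf.map (homOfLE hle).op f) :=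
    X.toRingedSpace.isUnit_res_basicOpen f
  obtain ⟨g, hg⟩ := hunit.exists_right_inv
  have hmul : ev s V f * ev s ⟨X.basicOpen f, hU, hne⟩ g = 1 := by
    rw [← hev f, ← map_mul, hg, map_one]
  have hne0 : ev s V f ≠ 0 := left_ne_zero_of_mul_eq_one hmul
  have hloc := V.aff.isLocalization_basicOpen f
  exact
    { le := st_SMONO X s V _ hle
      mem := (mem_O s).2 ⟨f, rfl⟩
      ne := hne0
      inv := (mem_O s).2 ⟨g, eq_inv_of_mul_eq_one_right hmul⟩
      surj := by
        intro a ha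
        obtain ⟨z, rfl⟩ := (mem_O s).1 ha
        obtain ⟨⟨x, ⟨_, n, rfl⟩⟩, hx⟩ :=
          IsLocalization.surj (Submonoid.powers f) (S := Γ(X, X.basicOpen f)) z
        refine ⟨n, (mem_O s).2 ⟨x, ?_⟩⟩
        have h1 : z * X.presheaf.map (homOfLE hle).op (f ^ n) =
            X.presheaf.map (homOfLE hle).op x := hx
        rw [← hev x, ← h1, map_mul, hev, map_pow, mul_comm] }

end Pool.Agent.Helper15.DAF
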